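import Pool.Agent.H6.RG.EMB

/-! Part C of the regularity theorem (MP_2697e3_an): the row CMG. -/

namespace Pool.Agent.H6.RG

open MeasureTheory Metric Set Filter Topology Pool.Agent.H87.SN Pool.Agent.H25.TRI
open scoped ContDiff RealInnerProductSpace ENNReal

noncomputable section

theorem pf_CMG (hG : T_GAU) (hA : T_UBA) (hP : T_UPD) (hH : T_UHE) (hL : T_ULP)
    (hMA : T_MOA) (hMB : T_MOB) : T_CMG := by
  intro n hn
  obtain ⟨C, hC0, hC⟩ := hMA n hn
  refine ⟨ENNReal.ofReal (11 * (4 * n * C ^ 2)), ENNReal.ofReal_ne_top, ?_⟩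
  intro b w M hb hw hM hbM i
  have hw2 : ∫⁻ x, ‖w x‖ₑ ^ 2 = ENNReal.ofReal (∫ x, w x * w x) := by
    rw [ofReal_integral_eq_lintegral_ofReal (hw.mul hw).integrable
      (Filter.Eventually.of_forall fun x => mul_self_nonneg _)]
    refine lintegral_congr fun x => ?_
    rw [← ofReal_norm, ← ENNReal.ofReal_pow (norm_nonneg _), Real.norm_eq_abs, sq_abs, sq]
  have hW0 : 0 ≤ ∫ x, w x * w x := integral_nonneg fun x => mul_self_nonneg _
  have hbd := AA_bounds hG hA hP hH hMB hC0 hC hb hM hbM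
  -- real bound on each interval
  have h1 : ∀ T : ℝ, 0 ≤ T → (∫ s in (0 : ℝ)..T, ∫ x, ∑ i, (U (pd i b) s x * U w s x) ^ 2) ≤
      11 * (4 * n * (C * M) ^ 2) * ∫ x, w x * w x := by
    intro T hT
    refine le_of_forall_pos_le_add fun ε hε => ?_
    set W := ∫ x, w x * w x
    set η : ℝ := ε / (11 * (W + 1)) with hη
    have hη0 : 0 < η := by positivity
    have h2 := emb_T hG hA hP hH hL hb hw (a := 4 * n * (C * M) ^ 2 + η) (by positivity)
      (fun s x => ⟨(hbd s x).1, (hbd s x).2.trans (by linarith)⟩) hT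
    have h3 : 11 * (4 * n * (C * M) ^ 2 + η) * W = 11 * (4 * n * (C * M) ^ 2) * W + 11 * η * W := by
      ring
    have h4 : 11 * η * W ≤ ε := by
      rw [hη]
      have : 11 * (ε / (11 * (W + 1))) * W = ε * (W / (W + 1)) := by field_simp
      rw [this]
      have h5 : W / (W + 1) ≤ 1 := by rw [div_le_one (by linarith)]; linarith
      nlinarith
    linarith
  have iw := U_BI hA hL hw
  have kq := fun i => U_BB hA (hb.pd i)
  have bQi : ∀ i, BI (fun p : ℝ × E n => (U (pd i b) p.1 p.2 * U w p.1 p.2) ^ 2) := by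
    intro i
    have := (iw.mul (kq i)).mul (iw.mul (kq i)).1
    refine (show (fun p : ℝ × E n => _) = _ from ?_) ▸ this
    funext p; ring
  have bQ : BI (fun p : ℝ × E n => ∑ i, (U (pd i b) p.1 p.2 * U w p.1 p.2) ^ 2) :=
    BI.sum Finset.univ fun i _ => bQi i
  -- lintegral on each interval
  have h2 : ∀ T : ℝ, 0 ≤ T →
      (∫⁻ s in Ioc (0 : ℝ) T, ∫⁻ x, (‖U (pd i b) s x‖ₑ * ‖U w s x‖ₑ) ^ 2) ≤
      ENNReal.ofReal (11 * (4 * n * C ^ 2)) * ENNReal.ofReal (M ^ 2) * ∫⁻ x, ‖w x‖ₑ ^ 2 := by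
    intro T hT
    have e1 : ∀ s, ∫⁻ x, (‖U (pd i b) s x‖ₑ * ‖U w s x‖ₑ) ^ 2 ≤
        ENNReal.ofReal (∫ x, ∑ i, (U (pd i b) s x * U w s x) ^ 2) := by
      intro s
      rw [ofReal_integral_eq_lintegral_ofReal (bQ.integrable s)
        (Filter.Eventually.of_forall fun x => Finset.sum_nonneg fun i _ => sq_nonneg _)]
      refine lintegral_mono fun x => ?_
      have e2 : (‖U (pd i b) s x‖ₑ * ‖U w s x‖ₑ) ^ 2 =
          ENNReal.ofReal ((U (pd i b) s x * U w s x) ^ 2) := by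
        rw [← enorm_mul, ← ofReal_norm, ← ENNReal.ofReal_pow (norm_nonneg _), Real.norm_eq_abs,
          sq_abs]
      rw [e2]
      refine ENNReal.ofReal_le_ofReal ?_
      exact Finset.single_le_sum (f := fun i => (U (pd i b) s x * U w s x) ^ 2)
        (fun i _ => sq_nonneg _) (Finset.mem_univ i)
    have e3 : (∫⁻ s in Ioc (0 : ℝ) T, ENNReal.ofReal
        (∫ x, ∑ i, (U (pd i b) s x * U w s x) ^ 2)) = ENNReal.ofReal
        (∫ s in (0 : ℝ)..T, ∫ x, ∑ i, (U (pd i b) s x * U w s x) ^ 2) := by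
      rw [intervalIntegral.integral_of_le hT]
      rw [ofReal_integral_eq_lintegral_ofReal]
      · exact (bQ.integrable_prod T).integral_prod_left
      · exact Filter.Eventually.of_forall fun s => integral_nonneg fun x =>
          Finset.sum_nonneg fun i _ => sq_nonneg _
    calc (∫⁻ s in Ioc (0 : ℝ) T, ∫⁻ x, (‖U (pd i b) s x‖ₑ * ‖U w s x‖ₑ) ^ 2)
        ≤ ∫⁻ s in Ioc (0 : ℝ) T, ENNReal.ofReal
            (∫ x, ∑ i, (U (pd i b) s x * U w s x) ^ 2) := lintegral_mono fun s => e1 s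
      _ = ENNReal.ofReal (∫ s in (0 : ℝ)..T, ∫ x, ∑ i, (U (pd i b) s x * U w s x) ^ 2) := e3
      _ ≤ ENNReal.ofReal (11 * (4 * n * (C * M) ^ 2) * ∫ x, w x * w x) :=
          ENNReal.ofReal_le_ofReal (h1 T hT)
      _ = _ := by
          rw [hw2, ← ENNReal.ofReal_mul (by positivity), ← ENNReal.ofReal_mul (by positivity)]
          congr 1
          ring
  -- all times
  have e4 : Ioi (0 : ℝ) = ⋃ k : ℕ, Ioc (0 : ℝ) k := by
    ext s
    simp only [mem_Ioi, mem_iUnion, mem_Ioc]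
    constructor
    · intro hs
      obtain ⟨k, hk⟩ := exists_nat_ge s
      exact ⟨k, hs, hk⟩
    · rintro ⟨k, hk, -⟩
      exact hk
  rw [e4, setLIntegral_iUnion_of_directed]
  · exact iSup_le fun k => h2 k (Nat.cast_nonneg k)
  · refine directed_of_isDirected_le fun j k hjk => ?_
    exact Ioc_subset_Ioc_right (by exact_mod_cast hjk)

end

end Pool.Agent.H6.RG
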