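import Pool.Agent.H6.RG.FAM

/-! Part C of the regularity theorem (MP_2697e3_an): the sup bound of
`A = (U b^2 - (U b)^2) / 2` under the Morrey bound of the gradient of `b`. -/

namespace Pool.Agent.H6.RG

open MeasureTheory Metric Set Filter Topology Pool.Agent.H87.SN Pool.Agent.H25.TRI
open scoped ContDiff RealInnerProductSpace ENNReal

noncomputable section

variable {n : ℕ}

lemma clm_eq (L : E n →L[ℝ] ℝ) :
    L = ∑ i, L (bv i) • (EuclideanSpace.proj i : E n →L[ℝ] ℝ) := by
  ext v
  have hv : v = ∑ i, v i • (bv i : E n) := by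
    ext j
    simp [bv, Finset.sum_apply, Pi.single_apply]
  conv_lhs => rw [hv]
  simp [mul_comm]

lemma gam_integrable (hG : T_GAU) : Integrable (gam : E n → ℝ) := by
  have := (hG n).2.2.1 0
  simpa using this

/-- integrability of the Gaussian times a bounded function -/
lemma gam_mul_int (hG : T_GAU) {f : E n → ℝ} (hf : Continuous f) {C : ℝ} (hC : ∀ x, |f x| ≤ C) :
    Integrable (fun z => gam z * f z) := by
  have := (gam_integrable (n := n) hG).bdd_mul (c := C) hf.aestronglyMeasurable
    (Filter.Eventually.of_forall fun x => by rw [Real.norm_eq_abs]; exact hC x)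
  simpa [mul_comm] using this

lemma U_sum (hG : T_GAU) {ι : Type*} (I : Finset ι) {f : ι → E n → ℝ} (hf : ∀ i ∈ I, Cc (f i))
    (s : ℝ) (x : E n) : U (fun y => ∑ i ∈ I, f i y) s x = ∑ i ∈ I, U (f i) s x := by
  unfold U
  rw [← integral_finsetSum]
  · refine integral_congr_ae (Filter.Eventually.of_forall fun z => ?_)
    simp [Finset.mul_sum]
  · intro i hi
    obtain ⟨C, hC⟩ := (hf i hi).bdd
    exact gam_mul_int hG ((hf i hi).continuous.comp (by fun_prop)) (fun x => hC _)

lemma U_lap (hG : T_GAU) {b : E n → ℝ} (hb : Cc b) (s : ℝ) (x : E n) :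
    U (lap b) s x = ∑ i, U (pd i (pd i b)) s x :=
  U_sum hG Finset.univ (f := fun i => pd i (pd i b)) (fun i _ => (hb.pd i).pd i) s x

lemma U_BB (hA : T_UBA) {b : E n → ℝ} (hb : Cc b) : BB (fun p : ℝ × E n => U b p.1 p.2) := by
  obtain ⟨h1, -, h3⟩ := hA n b hb.continuous hb.bdd
  obtain ⟨C, hC⟩ := hb.bdd
  exact ⟨h1, C, fun p => h3 C hC p.1 p.2⟩

lemma U_BI (hA : T_UBA) (hL : T_ULP) {b : E n → ℝ} (hb : Cc b) :
    BI (fun p : ℝ × E n => U b p.1 p.2) := by
  refine ⟨U_BB hA hb, ∫⁻ x, ‖b x‖ₑ, ?_, fun s => (hL n b hb s).1⟩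
  have := hb.integrable.2
  rw [hasFiniteIntegral_def] at this
  exact this.ne

lemma U_zero (hA : T_UBA) {b : E n → ℝ} (hb : Cc b) (x : E n) : U b 0 x = b x :=
  (hA n b hb.continuous hb.bdd).2.1 x

lemma U_diff (hP : T_UPD) {b : E n → ℝ} (hb : Cc b) (s : ℝ) : Differentiable ℝ (U b s) :=
  ((hP n b hb s).1).differentiable (by simp)

lemma U_pd (hP : T_UPD) {b : E n → ℝ} (hb : Cc b) (s : ℝ) (i : Fin n) (x : E n) :
    pd i (U b s) x = U (pd i b) s x := (hP n b hb s).2 i x

lemma U_fderiv (hP : T_UPD) {b : E n → ℝ} (hb : Cc b) (s : ℝ) (x : E n) :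
    HasFDerivAt (U b s)
      (∑ i, U (pd i b) s x • (EuclideanSpace.proj i : E n →L[ℝ] ℝ)) x := by
  have h := (U_diff hP hb s x).hasFDerivAt
  rw [clm_eq (fderiv ℝ (U b s) x)] at h
  have h2 : ∀ i, fderiv ℝ (U b s) x (bv i) = U (pd i b) s x := fun i => U_pd hP hb s i x
  simpa only [h2] using h

lemma U_strict (hA : T_UBA) (hP : T_UPD) (hH : T_UHE) {b : E n → ℝ} (hb : Cc b) {s : ℝ}
    (hs : 0 < s) (x : E n) :
    HasStrictFDerivAt (fun p : ℝ × E n => U b p.1 p.2)
      ((ContinuousLinearMap.toSpanSingleton ℝ (U (lap b) s x)).coprod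
        (∑ i, U (pd i b) s x • (EuclideanSpace.proj i : E n →L[ℝ] ℝ))) (s, x) := by
  have h := hasStrictFDerivAt_uncurry_coprod (𝕜 := ℝ) (u := (s, x)) (f := fun s x => U b s x)
    (f₁ := fun s x => ContinuousLinearMap.toSpanSingleton ℝ (U (lap b) s x))
    (f₂ := fun s x => ∑ i, U (pd i b) s x • (EuclideanSpace.proj i : E n →L[ℝ] ℝ)) ?_ ?_ ?_ ?_
  · exact h
  · have : ∀ᶠ v : ℝ × E n in 𝓝 (s, x), 0 < v.1 := by
      refine (continuous_fst.tendsto (s, x)).eventually (lt_mem_nhds ?_)
      exact hs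
    filter_upwards [this] with v hv
    exact (hH n b hb v.1 hv v.2).hasFDerivAt
  · exact Filter.Eventually.of_forall fun v => U_fderiv hP hb v.1 v.2
  · have h1 := (U_BB hA hb.lap).1
    have h2 : Continuous fun p : ℝ × E n =>
        ContinuousLinearMap.toSpanSingleton ℝ (U (lap b) p.1 p.2) := by
      have e : ∀ c : ℝ, ContinuousLinearMap.toSpanSingleton ℝ c =
          c • (ContinuousLinearMap.id ℝ ℝ) := by
        intro c; ext; simp
      simp_rw [e]
      exact h1.smul continuous_const
    exact h2.continuousAt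
  · have h2 : Continuous fun p : ℝ × E n =>
        ∑ i, U (pd i b) p.1 p.2 • (EuclideanSpace.proj i : E n →L[ℝ] ℝ) :=
      continuous_finsetSum _ fun i _ => (U_BB hA (hb.pd i)).1.smul continuous_const
    exact h2.continuousAt

lemma U_curve (hA : T_UBA) (hP : T_UPD) (hH : T_UHE) {b : E n → ℝ} (hb : Cc b) {s t : ℝ}
    (hs : 0 < s) (hst : s < t) (x z : E n) :
    HasDerivAt (fun s => U b s (x - √(t - s) • z))
      (U (lap b) s (x - √(t - s) • z) +
        ∑ i, U (pd i b) s (x - √(t - s) • z) * (z i / (2 * √(t - s)))) s := by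
  have h1 : HasDerivAt (fun s => √(t - s)) (-1 / (2 * √(t - s))) s := by
    have := (((hasDerivAt_id s).const_sub t)).sqrt (by simp only [id]; linarith)
    simpa using this
  have h2 : HasDerivAt (fun s => x - √(t - s) • z) ((1 / (2 * √(t - s))) • z) s := by
    have := (h1.smul_const z).const_sub x
    refine this.congr_deriv ?_
    rw [← neg_smul]
    congr 1
    ring
  have h3 : HasDerivAt (fun s => (s, x - √(t - s) • z)) (1, (1 / (2 * √(t - s))) • z) s :=
    (hasDerivAt_id s).prodMk h2
  have h4 := (U_strict hA hP hH hb hs (x - √(t - s) • z)).hasFDerivAt.comp_hasDerivAt s h3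
  refine h4.congr_deriv ?_
  have e : ∀ i : Fin n, (EuclideanSpace.proj i : E n →L[ℝ] ℝ) z = z i := fun i => rfl
  simp only [ContinuousLinearMap.coprod_apply, ContinuousLinearMap.toSpanSingleton_apply,
    _root_.sum_apply, _root_.smul_apply, map_smul, e, smul_eq_mul, one_mul]
  congr 1
  rw [Finset.mul_sum]
  apply Finset.sum_congr rfl
  intro i _
  ring

/-- Gaussian integration by parts -/
lemma gauss_ibp (hG : T_GAU) {h : E n → ℝ} (hd : Differentiable ℝ h) (i : Fin n)
    (hc : Continuous h) (hc' : Continuous (pd i h)) {C : ℝ} (hC : ∀ x, |h x| ≤ C)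
    (hC' : ∀ x, |pd i h x| ≤ C) (τ : ℝ) (x : E n) :
    ∫ z, gam z * z i * h (x - τ • z) = -(2 * τ) * ∫ z, gam z * pd i h (x - τ • z) := by
  have hgd : ContDiff ℝ ∞ (gam : E n → ℝ) := (hG n).2.2.2.1
  have hpg : ∀ z : E n, fderiv ℝ gam z (bv i) = -(z i) / 2 * gam z := fun z => (hG n).2.2.2.2 i z
  have hk : ∀ z : E n, HasFDerivAt (fun z => h (x - τ • z))
      ((fderiv ℝ h (x - τ • z)).comp (-(τ • ContinuousLinearMap.id ℝ (E n)))) z := by
    intro z
    have h1 : HasFDerivAt (fun z : E n => x - τ • z) (-(τ • ContinuousLinearMap.id ℝ (E n))) z := by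
      exact ((hasFDerivAt_id (𝕜 := ℝ) z).const_smul τ).const_sub x
    exact (hd (x - τ • z)).hasFDerivAt.comp z h1
  have hpk : ∀ z : E n, fderiv ℝ (fun z => h (x - τ • z)) z (bv i) = -τ * pd i h (x - τ • z) := by
    intro z
    rw [(hk z).fderiv]
    simp [pd]
  have hi1 : Integrable (fun z : E n => z i * gam z) := by
    have h1 := (hG n).2.2.1 1
    refine h1.mono' ((by fun_prop : Continuous fun z : E n => z i).mul
      hgd.continuous).aestronglyMeasurable ?_
    filter_upwards with z
    rw [norm_mul, pow_one, Real.norm_of_nonneg ((hG n).1 z).le]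
    gcongr
    · exact ((hG n).1 z).le
    · exact PiLp.norm_apply_le z i
  have hcx : Continuous fun z : E n => h (x - τ • z) := hc.comp (by fun_prop)
  have hcx' : Continuous fun z : E n => pd i h (x - τ • z) := hc'.comp (by fun_prop)
  have key := integral_mul_fderiv_eq_neg_fderiv_mul_of_integrable (μ := (volume : Measure (E n)))
    (f := gam) (g := fun z => h (x - τ • z)) (v := bv i) ?_ ?_ ?_
    (fun z _ => hgd.differentiable (by simp) z) (fun z _ => (hk z).differentiableAt)
  · simp_rw [hpk, hpg] at key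
    have e1 : ∀ z : E n, gam z * (-τ * pd i h (x - τ • z)) = -τ * (gam z * pd i h (x - τ • z)) := by
      intro z; ring
    have e2 : ∀ z : E n, -(z i) / 2 * gam z * h (x - τ • z) =
        -(1 / 2) * (gam z * z i * h (x - τ • z)) := by
      intro z; ring
    simp_rw [e1, e2, integral_const_mul] at key
    linarith
  · simp_rw [hpg]
    have := (hi1.const_mul (-(1 / 2))).bdd_mul (c := C) hcx.aestronglyMeasurable
      (Filter.Eventually.of_forall fun z => by rw [Real.norm_eq_abs]; exact hC _)
    refine this.congr (Filter.Eventually.of_forall fun z => ?_)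
    simp only
    ring
  · simp_rw [hpk]
    have := (gam_mul_int hG hcx' (fun z => hC' _)).const_mul (-τ)
    refine this.congr (Filter.Eventually.of_forall fun z => ?_)
    simp only
    ring
  · exact gam_mul_int hG hcx (fun z => hC _)

/-- the interpolation `s ↦ P_{t-s} (U b s)^2` -/
def Psi (b : E n → ℝ) (t : ℝ) (x : E n) (s : ℝ) : ℝ :=
  ∫ z : E n, gam z * (U b s (x - √(t - s) • z)) ^ 2

lemma Psi_cont (hG : T_GAU) (hA : T_UBA) {b : E n → ℝ} (hb : Cc b) (t : ℝ) (x : E n) :
    Continuous (Psi b t x) := by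
  obtain ⟨C, hC0, hC⟩ := (U_BB hA hb).nonneg_bound
  unfold Psi
  refine continuous_of_dominated (bound := fun z => gam z * C ^ 2) ?_ ?_ ?_ ?_
  · intro s
    refine ((hG n).2.2.2.1.continuous.mul (Continuous.pow ?_ 2)).aestronglyMeasurable
    exact (U_BB hA hb).1.comp (by fun_prop : Continuous fun z : E n => (s, x - √(t - s) • z))
  · intro s
    refine Filter.Eventually.of_forall fun z => ?_
    rw [Real.norm_of_nonneg (mul_nonneg ((hG n).1 z).le (sq_nonneg _))]
    refine mul_le_mul_of_nonneg_left ?_ ((hG n).1 z).le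
    exact sq_le_sq' (by linarith [(abs_le.1 (hC (s, x - √(t - s) • z))).1])
      (abs_le.1 (hC (s, x - √(t - s) • z))).2
  · exact (gam_integrable hG).mul_const _
  · refine Filter.Eventually.of_forall fun z => ?_
    refine continuous_const.mul (Continuous.pow ?_ 2)
    exact (U_BB hA hb).1.comp (by fun_prop : Continuous fun s : ℝ => (s, x - √(t - s) • z))

lemma gam_norm_int (hG : T_GAU) : Integrable (fun z : E n => gam z * ‖z‖) := by
  have h1 := (hG n).2.2.1 1
  refine h1.congr (Filter.Eventually.of_forall fun z => ?_)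
  simp only [pow_one]
  ring

lemma Psi_deriv (hG : T_GAU) (hA : T_UBA) (hP : T_UPD) (hH : T_UHE) {b : E n → ℝ} (hb : Cc b)
    {s t : ℝ} (hs : 0 < s) (hst : s < t) (x : E n) :
    HasDerivAt (Psi b t x)
      (-2 * ∑ i, ∫ z : E n, gam z * (U (pd i b) s (x - √(t - s) • z)) ^ 2) s := by
  obtain ⟨C0, hC00, hC0⟩ := (U_BB hA hb).nonneg_bound
  obtain ⟨C1, hC10, hC1⟩ := (U_BB hA hb.lap).nonneg_bound
  have hCi : ∀ i, ∃ C : ℝ, 0 ≤ C ∧ ∀ p : ℝ × E n, |U (pd i b) p.1 p.2| ≤ C :=
    fun i => (U_BB hA (hb.pd i)).nonneg_bound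
  choose C2 hC20 hC2 using hCi
  set F' : ℝ → E n → ℝ := fun s z => gam z * (2 * U b s (x - √(t - s) • z) *
    (U (lap b) s (x - √(t - s) • z) +
        ∑ i, U (pd i b) s (x - √(t - s) • z) * (z i / (2 * √(t - s))))) with hF'
  have hcurve : ∀ (f : E n → ℝ), Cc f → ∀ s : ℝ,
      Continuous fun z : E n => U f s (x - √(t - s) • z) := by
    intro f hf s
    exact (U_BB hA hf).1.comp (by fun_prop : Continuous fun z : E n => (s, x - √(t - s) • z))
  set r : ℝ := min s (t - s) / 2 with hr
  have hr0 : 0 < r := by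
    have : 0 < min s (t - s) := lt_min hs (by linarith)
    positivity
  have hr1 : r ≤ s / 2 := by
    have := min_le_left s (t - s)
    rw [hr]; linarith
  have hr2 : r ≤ (t - s) / 2 := by
    have := min_le_right s (t - s)
    rw [hr]; linarith
  set δ : ℝ := √((t - s) / 2) with hδ
  have hδ0 : 0 < δ := Real.sqrt_pos.2 (by linarith)
  have key := hasDerivAt_integral_of_dominated_loc_of_deriv_le (μ := (volume : Measure (E n)))
    (F := fun s z => gam z * (U b s (x - √(t - s) • z)) ^ 2) (F' := F') (x₀ := s)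
    (s := ball s r) (bound := fun z => 2 * C0 * C1 * gam z + 2 * C0 * (∑ i, C2 i) / (2 * δ) *
      (gam z * ‖z‖)) (ball_mem_nhds s hr0) ?_ ?_ ?_ ?_ ?_ ?_
  · refine key.2.congr_deriv ?_
    have e1 : ∀ z : E n, F' s z = 2 * (gam z * (U b s (x - √(t - s) • z) *
        U (lap b) s (x - √(t - s) • z))) + ∑ i, 1 / (2 * √(t - s)) * (gam z * z i *
        (2 * (U b s (x - √(t - s) • z) * U (pd i b) s (x - √(t - s) • z)))) := by
      intro z
      simp only [hF', mul_add, Finset.mul_sum]
      congr 1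
      · ring
      · refine Finset.sum_congr rfl fun i _ => ?_
        ring
    have hτ : 0 < √(t - s) := Real.sqrt_pos.2 (by linarith)
    have hI0 : ∀ f : E n → ℝ, Cc f → Integrable (fun z : E n => gam z *
        (U b s (x - √(t - s) • z) * U f s (x - √(t - s) • z))) := by
      intro f hf
      obtain ⟨D, hD0, hD⟩ := (U_BB hA hf).nonneg_bound
      refine gam_mul_int hG ((hcurve b hb s).mul (hcurve f hf s)) (C := C0 * D) fun z => ?_
      rw [abs_mul]
      exact mul_le_mul (hC0 (s, _)) (hD (s, _)) (abs_nonneg _) hC00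
    have hI1 : ∀ i, Integrable (fun z : E n => gam z *
        (U (pd i b) s (x - √(t - s) • z)) ^ 2) := by
      intro i
      refine gam_mul_int hG ((hcurve _ (hb.pd i) s).pow 2) (C := C2 i ^ 2) fun z => ?_
      rw [abs_pow]
      exact pow_le_pow_left₀ (abs_nonneg _) (hC2 i (s, _)) 2
    have hibp : ∀ i, ∫ z : E n, gam z * z i *
        (2 * (U b s (x - √(t - s) • z) * U (pd i b) s (x - √(t - s) • z))) =
        -(2 * √(t - s)) * (2 * (∫ z : E n, gam z * (U (pd i b) s (x - √(t - s) • z)) ^ 2) +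
          2 * ∫ z : E n, gam z * (U b s (x - √(t - s) • z) *
            U (pd i (pd i b)) s (x - √(t - s) • z))) := by
      intro i
      have hdm : Differentiable ℝ (fun y => U b s y * U (pd i b) s y) :=
        (U_diff hP hb s).mul (U_diff hP (hb.pd i) s)
      have hd : Differentiable ℝ (fun y => 2 * (U b s y * U (pd i b) s y)) := hdm.const_mul 2
      have hpd : pd i (fun y => 2 * (U b s y * U (pd i b) s y)) = fun y =>
          2 * (U (pd i b) s y ^ 2 + U b s y * U (pd i (pd i b)) s y) := by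
        funext y
        rw [pd_cmul (hdm y), pd_mul (U_diff hP hb s y) (U_diff hP (hb.pd i) s y),
          U_pd hP hb, U_pd hP (hb.pd i)]
        ring
      obtain ⟨D, hD0, hD⟩ := (U_BB hA ((hb.pd i).pd i)).nonneg_bound
      have hcx : ∀ (f : E n → ℝ), Cc f → Continuous (U f s) := fun f hf =>
        (U_BB hA hf).1.comp (by fun_prop : Continuous fun z : E n => (s, z))
      have := gauss_ibp hG hd i (hd.continuous)
        (by
          rw [hpd]
          exact continuous_const.mul (((hcx _ (hb.pd i)).pow 2).add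
            ((hcx _ hb).mul (hcx _ ((hb.pd i).pd i)))))
        (C := 2 * (C0 * C2 i) + 2 * (C2 i ^ 2 + C0 * D)) ?_ ?_ (√(t - s)) x
      · rw [this, hpd]
        congr 1
        rw [← integral_const_mul, ← integral_const_mul, ← integral_add ((hI1 i).const_mul 2)
          ((hI0 _ ((hb.pd i).pd i)).const_mul 2)]
        refine integral_congr_ae (Filter.Eventually.of_forall fun z => ?_)
        simp only
        ring
      · intro y
        rw [abs_mul, abs_mul, abs_two]
        have h1 : |U b s y| * |U (pd i b) s y| ≤ C0 * C2 i :=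
          mul_le_mul (hC0 (s, y)) (hC2 i (s, y)) (abs_nonneg _) hC00
        have h2 : 0 ≤ 2 * (C2 i ^ 2 + C0 * D) := by positivity
        linarith
      · intro y
        rw [hpd]
        simp only
        rw [abs_mul, abs_two]
        have h1 : |U (pd i b) s y ^ 2 + U b s y * U (pd i (pd i b)) s y| ≤ C2 i ^ 2 + C0 * D := by
          refine (abs_add_le _ _).trans (add_le_add ?_ ?_)
          · rw [abs_pow]
            exact pow_le_pow_left₀ (abs_nonneg _) (hC2 i (s, y)) 2
          · rw [abs_mul]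
            exact mul_le_mul (hC0 (s, y)) (hD (s, y)) (abs_nonneg _) hC00
        have h2 : 0 ≤ 2 * (C0 * C2 i) := by have := hC20 i; positivity
        linarith
    have hI2 : ∀ i, Integrable (fun z : E n => 1 / (2 * √(t - s)) * (gam z * z i *
        (2 * (U b s (x - √(t - s) • z) * U (pd i b) s (x - √(t - s) • z))))) := by
      intro i
      refine Integrable.const_mul ?_ _
      have h1 : Integrable (fun z : E n => gam z * z i) := by
        refine (gam_norm_int hG).mono' ((hG n).2.2.2.1.continuous.mul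
          (by fun_prop : Continuous fun z : E n => z i)).aestronglyMeasurable ?_
        filter_upwards with z
        rw [norm_mul, Real.norm_of_nonneg ((hG n).1 z).le]
        exact mul_le_mul_of_nonneg_left (PiLp.norm_apply_le z i) ((hG n).1 z).le
      have := h1.bdd_mul (c := 2 * (C0 * C2 i)) (f := fun z : E n =>
        2 * (U b s (x - √(t - s) • z) * U (pd i b) s (x - √(t - s) • z)))
        ((hcurve b hb s).mul (hcurve _ (hb.pd i) s) |>.const_smul (2 : ℝ)).aestronglyMeasurable
        (Filter.Eventually.of_forall fun z => ?_)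
      · refine this.congr (Filter.Eventually.of_forall fun z => ?_)
        simp only
        ring
      · rw [Real.norm_eq_abs, abs_mul, abs_mul, abs_two]
        exact mul_le_mul_of_nonneg_left
          (mul_le_mul (hC0 (s, _)) (hC2 i (s, _)) (abs_nonneg _) hC00) (by norm_num)
    simp_rw [e1]
    rw [integral_add ((hI0 _ hb.lap).const_mul 2) (integrable_finsetSum _ fun i _ => hI2 i),
      integral_finsetSum _ fun i _ => hI2 i]
    simp_rw [integral_const_mul, hibp, U_lap hG hb]
    have e2 : ∀ z : E n, gam z * (U b s (x - √(t - s) • z) *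
        ∑ i, U (pd i (pd i b)) s (x - √(t - s) • z)) = ∑ i, gam z * (U b s (x - √(t - s) • z) *
        U (pd i (pd i b)) s (x - √(t - s) • z)) := by
      intro z
      rw [Finset.mul_sum, Finset.mul_sum]
    simp_rw [e2]
    rw [integral_finsetSum _ fun i _ => hI0 _ ((hb.pd i).pd i), Finset.mul_sum, Finset.mul_sum,
      ← Finset.sum_add_distrib]
    refine Finset.sum_congr rfl fun i _ => ?_
    field_simp
    ring
  · refine Filter.Eventually.of_forall fun s => ?_
    exact ((hG n).2.2.2.1.continuous.mul ((hcurve b hb s).pow 2)).aestronglyMeasurable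
  · refine gam_mul_int hG ((hcurve _ hb s).pow 2) (C := C0 ^ 2) fun z => ?_
    rw [abs_pow]
    exact pow_le_pow_left₀ (abs_nonneg _) (hC0 (s, _)) 2
  · refine ((hG n).2.2.2.1.continuous.mul ((continuous_const.mul (hcurve b hb s)).mul
      ((hcurve _ hb.lap s).add (continuous_finsetSum _ fun i _ =>
        (hcurve _ (hb.pd i) s).mul (by fun_prop))))).aestronglyMeasurable
  · refine Filter.Eventually.of_forall fun z => ?_
    intro σ hσ
    rw [mem_ball, Real.dist_eq, abs_lt] at hσ
    have h1 : δ ≤ √(t - σ) := Real.sqrt_le_sqrt (by linarith)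
    have h1' : 0 < √(t - σ) := hδ0.trans_le h1
    have hg := (hG n).1 z
    simp only [hF']
    rw [norm_mul, Real.norm_of_nonneg hg.le, Real.norm_eq_abs, abs_mul, abs_mul, abs_two]
    have h2 : |U (lap b) σ (x - √(t - σ) • z) +
        ∑ i, U (pd i b) σ (x - √(t - σ) • z) * (z i / (2 * √(t - σ)))| ≤
        C1 + (∑ i, C2 i) * (‖z‖ / (2 * δ)) := by
      refine (abs_add_le _ _).trans (add_le_add (hC1 (σ, _)) ?_)
      refine (Finset.abs_sum_le_sum_abs _ _).trans ?_
      rw [Finset.sum_mul]
      refine Finset.sum_le_sum fun i _ => ?_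
      rw [abs_mul]
      refine mul_le_mul (hC2 i (σ, _)) ?_ (abs_nonneg _) (hC20 i)
      rw [abs_div, abs_of_pos (by positivity : 0 < 2 * √(t - σ))]
      gcongr
      exact PiLp.norm_apply_le z i
    have h3 : 2 * |U b σ (x - √(t - σ) • z)| * |U (lap b) σ (x - √(t - σ) • z) +
        ∑ i, U (pd i b) σ (x - √(t - σ) • z) * (z i / (2 * √(t - σ)))| ≤
        2 * C0 * (C1 + (∑ i, C2 i) * (‖z‖ / (2 * δ))) := by
      refine mul_le_mul (mul_le_mul_of_nonneg_left (hC0 (σ, _)) (by norm_num)) h2
        (abs_nonneg _) (by positivity)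
    calc gam z * (2 * |U b σ (x - √(t - σ) • z)| * |U (lap b) σ (x - √(t - σ) • z) +
        ∑ i, U (pd i b) σ (x - √(t - σ) • z) * (z i / (2 * √(t - σ)))|)
        ≤ gam z * (2 * C0 * (C1 + (∑ i, C2 i) * (‖z‖ / (2 * δ)))) :=
          mul_le_mul_of_nonneg_left h3 hg.le
      _ = _ := by ring
  · refine Integrable.add ((gam_integrable hG).const_mul _) ((gam_norm_int hG).const_mul _)
  · refine Filter.Eventually.of_forall fun z => ?_
    intro σ hσ
    rw [mem_ball, Real.dist_eq, abs_lt] at hσ
    have h1 := U_curve hA hP hH hb (s := σ) (t := t) (by linarith) (by linarith) x z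
    have h2 := (h1.pow 2).const_mul (gam z)
    refine h2.congr_deriv ?_
    simp only [hF']
    push_cast
    ring

end

end Pool.Agent.H6.RG
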