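import Pool.Agent.H6.RG.SUPA

/-! Part C of the regularity theorem (MP_2697e3_an): the Carleson embedding for `|grad b_s|^2 dx ds`
by the test function `A (3 a - A)`, without maximal functions. -/

namespace Pool.Agent.H6.RG

open MeasureTheory Metric Set Filter Topology Pool.Agent.H87.SN Pool.Agent.H25.TRI
open scoped ContDiff RealInnerProductSpace ENNReal

noncomputable section

variable {n : ℕ}

/-- CMG: the embedding for the measure `|U (pd i b)|^2 dx ds`. -/
def T_CMG : Prop := ∀ n : ℕ, 1 ≤ n → ∃ C : ℝ≥0∞, C ≠ ⊤ ∧ ∀ (b w : E n → ℝ) (M : ℝ), Cc b → Cc w →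
  0 ≤ M → (∀ i, Mor (pd i b) M) → ∀ i,
    (∫⁻ s in Ioi (0 : ℝ), ∫⁻ x, (‖U (pd i b) s x‖ₑ * ‖U w s x‖ₑ) ^ 2) ≤
      C * ENNReal.ofReal (M ^ 2) * ∫⁻ x, ‖w x‖ₑ ^ 2

lemma int_zero_of_eq {f g : E n → ℝ} (hf : Differentiable ℝ f) (hi : Integrable f) (i : Fin n)
    (he : pd i f = g) (hd : Integrable g) : ∫ x, g x = 0 := by
  subst he
  exact int_pd_zero hf hi i hd

/-- energy identity -/
lemma energy (hG : T_GAU) (hA : T_UBA) (hP : T_UPD) (hH : T_UHE) (hL : T_ULP) {w : E n → ℝ}
    (hw : Cc w) {T : ℝ} (hT : 0 ≤ T) :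
    (∫ x, U w T x * U w T x) - ∫ x, w x * w x =
      -2 * ∫ s in (0 : ℝ)..T, ∫ x, ∑ i, U (pd i w) s x * U (pd i w) s x := by
  have hwI := U_BI hA hL hw
  have hwiI : ∀ i, BI (fun p : ℝ × E n => U (pd i w) p.1 p.2) := fun i => U_BI hA hL (hw.pd i)
  have hwiiI : ∀ i, BI (fun p : ℝ × E n => U (pd i (pd i w)) p.1 p.2) :=
    fun i => U_BI hA hL ((hw.pd i).pd i)
  have hlI := U_BI hA hL hw.lap
  have h := ftc_int (G := fun p : ℝ × E n => U w p.1 p.2 * U w p.1 p.2)
    (G' := fun p : ℝ × E n => 2 * (U w p.1 p.2 * U (lap w) p.1 p.2))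
    (hwI.mul hwI.1) ((hwI.mul hlI.1).cmul 2) (fun s hs x => by
      have h1 := hH n w hw s hs x
      refine (h1.mul h1).congr_deriv ?_
      simp only
      ring) hT
  simp only [U_zero hA hw] at h
  rw [h, ← intervalIntegral.integral_const_mul]
  refine intervalIntegral.integral_congr fun s _ => ?_
  beta_reduce
  have hI1 : ∀ i, Integrable (fun x => U (pd i w) s x * U (pd i w) s x) :=
    fun i => ((hwiI i).mul (hwiI i).1).integrable s
  have hI2 : ∀ i, Integrable (fun x => U w s x * U (pd i (pd i w)) s x) :=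
    fun i => (hwI.mul (hwiiI i).1).integrable s
  have hz : ∀ i, (∫ x, U (pd i w) s x * U (pd i w) s x) +
      ∫ x, U w s x * U (pd i (pd i w)) s x = 0 := by
    intro i
    rw [← integral_add (hI1 i) (hI2 i)]
    refine int_zero_of_eq (f := fun x => U w s x * U (pd i w) s x)
      ((U_diff hP hw s).mul (U_diff hP (hw.pd i) s)) ((hwI.mul (hwiI i).1).integrable s) i ?_
      ((hI1 i).add (hI2 i))
    funext x
    rw [pd_mul (U_diff hP hw s x) (U_diff hP (hw.pd i) s x), U_pd hP hw, U_pd hP (hw.pd i)]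
  simp_rw [U_lap hG hw, Finset.mul_sum]
  rw [integral_finsetSum _ fun i _ => (hI2 i).const_mul 2,
    integral_finsetSum _ fun i _ => hI1 i, Finset.mul_sum]
  refine Finset.sum_congr rfl fun i _ => ?_
  rw [integral_const_mul]
  linarith [hz i]

/-- the embedding on `(0,T)`, real form -/
lemma emb_T (hG : T_GAU) (hA : T_UBA) (hP : T_UPD) (hH : T_UHE) (hL : T_ULP) {b w : E n → ℝ}
    (hb : Cc b) (hw : Cc w) {a : ℝ} (ha : 0 < a) (hAa : ∀ s x, 0 ≤ AA b s x ∧ AA b s x ≤ a)
    {T : ℝ} (hT : 0 ≤ T) :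
    (∫ s in (0 : ℝ)..T, ∫ x, ∑ i, (U (pd i b) s x * U w s x) ^ 2) ≤
      11 * a * ∫ x, w x * w x := by
  have hb2 : Cc (fun y => b y * b y) := hb.mul hb
  set b2 : E n → ℝ := fun y => b y * b y with hb2def
  have kb := U_BB hA hb
  have kb2 := U_BB hA hb2
  have kq := fun i => U_BB hA (hb.pd i)
  have kqq := fun i => U_BB hA ((hb.pd i).pd i)
  have kp := fun i => U_BB hA (hb2.pd i)
  have kpp := fun i => U_BB hA ((hb2.pd i).pd i)
  have kl := U_BB hA hb.lap
  have kl2 := U_BB hA hb2.lap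
  have iw := U_BI hA hL hw
  have iwi := fun i => U_BI hA hL (hw.pd i)
  have iwii := fun i => U_BI hA hL ((hw.pd i).pd i)
  have iwl := U_BI hA hL hw.lap
  -- the functions
  set A : ℝ × E n → ℝ := fun p => (U b2 p.1 p.2 - U b p.1 p.2 * U b p.1 p.2) / 2 with hAd
  have hAeq : ∀ s x, A (s, x) = AA b s x := fun s x => rfl
  set At : ℝ × E n → ℝ := fun p =>
    (U (lap b2) p.1 p.2 - 2 * (U b p.1 p.2 * U (lap b) p.1 p.2)) / 2 with hAtd
  set Ai : Fin n → ℝ × E n → ℝ := fun i p =>
    (U (pd i b2) p.1 p.2 - 2 * (U b p.1 p.2 * U (pd i b) p.1 p.2)) / 2 with hAid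
  set Aii : Fin n → ℝ × E n → ℝ := fun i p =>
    (U (pd i (pd i b2)) p.1 p.2 - 2 * (U (pd i b) p.1 p.2 * U (pd i b) p.1 p.2 +
      U b p.1 p.2 * U (pd i (pd i b)) p.1 p.2)) / 2 with hAiid
  have kA : BB A := by
    have := (kb2.sub (kb.mul kb)).cmul (1 / 2)
    refine (show A = _ from ?_) ▸ this
    funext p; simp only [hAd]; ring
  have kAt : BB At := by
    have := (kl2.sub ((kb.mul kl).cmul 2)).cmul (1 / 2)
    refine (show At = _ from ?_) ▸ this
    funext p; simp only [hAtd]; ring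
  have kAi : ∀ i, BB (Ai i) := by
    intro i
    have := ((kp i).sub ((kb.mul (kq i)).cmul 2)).cmul (1 / 2)
    refine (show Ai i = _ from ?_) ▸ this
    funext p; simp only [hAid]; ring
  have kAii : ∀ i, BB (Aii i) := by
    intro i
    have := ((kpp i).sub ((((kq i).mul (kq i)).add (kb.mul (kqq i))).cmul 2)).cmul (1 / 2)
    refine (show Aii i = _ from ?_) ▸ this
    funext p; simp only [hAiid]; ring
  -- derivatives of `A`
  have hAt : ∀ s > 0, ∀ x, HasDerivAt (fun s => A (s, x)) (At (s, x)) s := by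
    intro s hs x
    have h1 := hH n b hb s hs x
    have h2 := hH n b2 hb2 s hs x
    have h3 := (h2.sub (h1.mul h1)).div_const 2
    refine h3.congr_deriv ?_
    simp only [hAtd]
    ring
  have hAdiff : ∀ s, Differentiable ℝ (fun x => A (s, x)) := by
    intro s
    have := ((U_diff hP hb2 s).sub ((U_diff hP hb s).mul (U_diff hP hb s))).const_mul (1 / 2)
    refine (show (fun x => A (s, x)) = _ from ?_) ▸ this
    funext x; simp only [hAd, Pi.sub_apply, Pi.mul_apply]; ring
  have hAidiff : ∀ i s, Differentiable ℝ (fun x => Ai i (s, x)) := by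
    intro i s
    have := ((U_diff hP (hb2.pd i) s).sub
      (((U_diff hP hb s).mul (U_diff hP (hb.pd i) s)).const_mul 2)).const_mul (1 / 2)
    refine (show (fun x => Ai i (s, x)) = _ from ?_) ▸ this
    funext x; simp only [hAid, Pi.sub_apply, Pi.mul_apply]; ring
  have hAi : ∀ i s, pd i (fun x => A (s, x)) = fun x => Ai i (s, x) := by
    intro i s
    have hm : Differentiable ℝ (fun x => U b s x * U b s x) :=
      (U_diff hP hb s).mul (U_diff hP hb s)
    have hmm : Differentiable ℝ (fun x => U b2 s x - U b s x * U b s x) :=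
      (U_diff hP hb2 s).sub hm
    funext x
    have e : (fun x => A (s, x)) = fun x => (1 / 2) * (U b2 s x - U b s x * U b s x) := by
      funext x; simp only [hAd]; ring
    rw [e, pd_cmul (hmm x), pd_sub (U_diff hP hb2 s x) (hm x),
      pd_mul (U_diff hP hb s x) (U_diff hP hb s x), U_pd hP hb2, U_pd hP hb]
    simp only [hAid]
    ring
  have hAii : ∀ i s, pd i (fun x => Ai i (s, x)) = fun x => Aii i (s, x) := by
    intro i s
    have hm : Differentiable ℝ (fun x => U b s x * U (pd i b) s x) :=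
      (U_diff hP hb s).mul (U_diff hP (hb.pd i) s)
    have hm2 : Differentiable ℝ (fun x => 2 * (U b s x * U (pd i b) s x)) := hm.const_mul 2
    have hmm : Differentiable ℝ (fun x => U (pd i b2) s x - 2 * (U b s x * U (pd i b) s x)) :=
      (U_diff hP (hb2.pd i) s).sub hm2
    funext x
    have e : (fun x => Ai i (s, x)) = fun x => (1 / 2) * (U (pd i b2) s x -
        2 * (U b s x * U (pd i b) s x)) := by
      funext x; simp only [hAid]; ring
    rw [e, pd_cmul (hmm x),
      pd_sub (U_diff hP (hb2.pd i) s x) (hm2 x), pd_cmul (hm x),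
      pd_mul (U_diff hP hb s x) (U_diff hP (hb.pd i) s x), U_pd hP (hb2.pd i), U_pd hP hb,
      U_pd hP (hb.pd i)]
    simp only [hAiid]
    ring
  have hsumA : ∀ s x, At (s, x) = ∑ i, (Aii i (s, x) + U (pd i b) s x * U (pd i b) s x) := by
    intro s x
    simp only [hAtd, hAiid, U_lap hG hb, U_lap hG hb2]
    rw [Finset.mul_sum, Finset.mul_sum, ← Finset.sum_sub_distrib, Finset.sum_div]
    refine Finset.sum_congr rfl fun i _ => ?_
    ring
  -- the time derivative
  have kf : BB (fun p => 3 * a * A p - A p * A p) := (kA.cmul (3 * a)).sub (kA.mul kA)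
  have kf' : BB (fun p => 3 * a - 2 * A p) := (BB.const (3 * a)).sub (kA.cmul 2)
  have hftc := ftc_int
    (G := fun p : ℝ × E n => (3 * a * A p - A p * A p) * (U w p.1 p.2 * U w p.1 p.2))
    (G' := fun p : ℝ × E n => ((3 * a - 2 * A p) * At p) * (U w p.1 p.2 * U w p.1 p.2) +
      (3 * a * A p - A p * A p) * (2 * (U w p.1 p.2 * U (lap w) p.1 p.2)))
    (BI.mul' kf (iw.mul iw.1)) ((BI.mul' (kf'.mul kAt) (iw.mul iw.1)).add
      (BI.mul' kf ((iw.mul iwl.1).cmul 2))) (fun s hs x => by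
      have h1 := hH n w hw s hs x
      have h2 := hAt s hs x
      have h3 := (((h2.const_mul (3 * a)).sub (h2.mul h2)).mul (h1.mul h1))
      refine h3.congr_deriv ?_
      simp only [Pi.mul_apply, Pi.sub_apply]
      ring) hT
  -- the space identity
  set R : ℝ × E n → ℝ := fun p => ∑ i, ((3 * a - 2 * A p) * (U (pd i b) p.1 p.2 * U w p.1 p.2) ^ 2
    + 2 * (Ai i p * U w p.1 p.2) ^ 2
    - 4 * ((3 * a - 2 * A p) * (Ai i p * U w p.1 p.2) * U (pd i w) p.1 p.2)
    - 2 * ((3 * a * A p - A p * A p) * (U (pd i w) p.1 p.2) ^ 2)) with hR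
  have bR1 : ∀ i, BI (fun p : ℝ × E n => (3 * a - 2 * A p) *
      (U (pd i b) p.1 p.2 * U w p.1 p.2) ^ 2) := by
    intro i
    have := BI.mul' kf' ((iw.mul (kq i)).mul (iw.mul (kq i)).1)
    refine (show (fun p : ℝ × E n => _) = _ from ?_) ▸ this
    funext p; ring
  have bR2 : ∀ i, BI (fun p : ℝ × E n => 2 * (Ai i p * U w p.1 p.2) ^ 2) := by
    intro i
    have := ((iw.mul (kAi i)).mul (iw.mul (kAi i)).1).cmul 2
    refine (show (fun p : ℝ × E n => _) = _ from ?_) ▸ this
    funext p; ring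
  have bR3 : ∀ i, BI (fun p : ℝ × E n => 4 * ((3 * a - 2 * A p) * (Ai i p * U w p.1 p.2) *
      U (pd i w) p.1 p.2)) := by
    intro i
    have := (BI.mul' (kf'.mul (iw.mul (kAi i)).1) (iwi i)).cmul 4
    refine (show (fun p : ℝ × E n => _) = _ from ?_) ▸ this
    funext p; ring
  have bR4 : ∀ i, BI (fun p : ℝ × E n => 2 * ((3 * a * A p - A p * A p) *
      (U (pd i w) p.1 p.2) ^ 2)) := by
    intro i
    have := (BI.mul' kf ((iwi i).mul (iwi i).1)).cmul 2
    refine (show (fun p : ℝ × E n => _) = _ from ?_) ▸ this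
    funext p; ring
  have bR : BI R := BI.sum Finset.univ fun i _ => (((bR1 i).add (bR2 i)).sub (bR3 i)).sub (bR4 i)
  have bS : BI (fun p : ℝ × E n => ∑ i, U (pd i w) p.1 p.2 * U (pd i w) p.1 p.2) :=
    BI.sum Finset.univ fun i _ => (iwi i).mul (iwi i).1
  have bQ : BI (fun p : ℝ × E n => ∑ i, (U (pd i b) p.1 p.2 * U w p.1 p.2) ^ 2) := by
    refine BI.sum Finset.univ fun i _ => ?_
    have := (iw.mul (kq i)).mul (iw.mul (kq i)).1
    refine (show (fun p : ℝ × E n => _) = _ from ?_) ▸ this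
    funext p; ring
  -- V and W
  have bV : ∀ i, BI (fun p : ℝ × E n => (3 * a - 2 * A p) * Ai i p *
      (U w p.1 p.2 * U w p.1 p.2)) := fun i => BI.mul' (kf'.mul (kAi i)) (iw.mul iw.1)
  have bW : ∀ i, BI (fun p : ℝ × E n => 2 * ((3 * a * A p - A p * A p) *
      (U w p.1 p.2 * U (pd i w) p.1 p.2))) := fun i => (BI.mul' kf (iw.mul (iwi i).1)).cmul 2
  have bV' : ∀ i, BI (fun p : ℝ × E n => (-2 * (Ai i p * Ai i p) + (3 * a - 2 * A p) * Aii i p) *
      (U w p.1 p.2 * U w p.1 p.2) + (3 * a - 2 * A p) * Ai i p *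
      (2 * (U w p.1 p.2 * U (pd i w) p.1 p.2))) := fun i =>
    (BI.mul' ((((kAi i).mul (kAi i)).cmul (-2)).add (kf'.mul (kAii i))) (iw.mul iw.1)).add
      (BI.mul' (kf'.mul (kAi i)) ((iw.mul (iwi i).1).cmul 2))
  have bW' : ∀ i, BI (fun p : ℝ × E n => 2 * (((3 * a - 2 * A p) * Ai i p) *
      (U w p.1 p.2 * U (pd i w) p.1 p.2) + (3 * a * A p - A p * A p) *
      (U (pd i w) p.1 p.2 * U (pd i w) p.1 p.2 + U w p.1 p.2 * U (pd i (pd i w)) p.1 p.2))) :=
    fun i => ((BI.mul' (kf'.mul (kAi i)) (iw.mul (iwi i).1)).add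
      (BI.mul' kf (((iwi i).mul (iwi i).1).add (iw.mul (iwii i).1)))).cmul 2
  have hV : ∀ i s, ∫ x, ((-2 * (Ai i (s, x) * Ai i (s, x)) + (3 * a - 2 * A (s, x)) *
      Aii i (s, x)) * (U w s x * U w s x) + (3 * a - 2 * A (s, x)) * Ai i (s, x) *
      (2 * (U w s x * U (pd i w) s x))) = 0 := by
    intro i s
    have d1 : Differentiable ℝ (fun x => 3 * a - 2 * A (s, x)) :=
      ((hAdiff s).const_mul 2).const_sub _
    have d2 : Differentiable ℝ (fun x => (3 * a - 2 * A (s, x)) * Ai i (s, x)) :=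
      d1.mul (hAidiff i s)
    have d3 : Differentiable ℝ (fun x => U w s x * U w s x) :=
      (U_diff hP hw s).mul (U_diff hP hw s)
    refine int_zero_of_eq (f := fun x => (3 * a - 2 * A (s, x)) * Ai i (s, x) *
      (U w s x * U w s x)) (d2.mul d3) ((bV i).integrable s) i ?_ ((bV' i).integrable s)
    funext x
    have e0 : pd i (fun x => 3 * a - 2 * A (s, x)) x = -2 * Ai i (s, x) := by
      rw [pd_sub (differentiableAt_const _) (((hAdiff s).const_mul 2) x), pd_cmul (hAdiff s x),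
        hAi i s]
      simp [pd]
    rw [pd_mul (d2 x) (d3 x), pd_mul (d1 x) (hAidiff i s x), e0, hAii i s,
      pd_mul (U_diff hP hw s x) (U_diff hP hw s x), U_pd hP hw]
    ring
  have hW : ∀ i s, ∫ x, 2 * (((3 * a - 2 * A (s, x)) * Ai i (s, x)) *
      (U w s x * U (pd i w) s x) + (3 * a * A (s, x) - A (s, x) * A (s, x)) *
      (U (pd i w) s x * U (pd i w) s x + U w s x * U (pd i (pd i w)) s x)) = 0 := by
    intro i s
    have d1 : Differentiable ℝ (fun x => A (s, x) * A (s, x)) := (hAdiff s).mul (hAdiff s)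
    have d2 : Differentiable ℝ (fun x => 3 * a * A (s, x) - A (s, x) * A (s, x)) :=
      ((hAdiff s).const_mul (3 * a)).sub d1
    have d3 : Differentiable ℝ (fun x => U w s x * U (pd i w) s x) :=
      (U_diff hP hw s).mul (U_diff hP (hw.pd i) s)
    refine int_zero_of_eq (f := fun x => 2 * ((3 * a * A (s, x) - A (s, x) * A (s, x)) *
      (U w s x * U (pd i w) s x))) ((d2.mul d3).const_mul 2) ((bW i).integrable s) i ?_
      ((bW' i).integrable s)
    funext x
    have e0 : pd i (fun x => 3 * a * A (s, x) - A (s, x) * A (s, x)) x =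
        (3 * a - 2 * A (s, x)) * Ai i (s, x) := by
      rw [pd_sub (((hAdiff s).const_mul (3 * a)) x) (d1 x), pd_cmul (hAdiff s x),
        pd_mul (hAdiff s x) (hAdiff s x), hAi i s]
      ring
    have d4 : Differentiable ℝ (fun x => (3 * a * A (s, x) - A (s, x) * A (s, x)) *
      (U w s x * U (pd i w) s x)) := d2.mul d3
    rw [pd_cmul (d4 x), pd_mul (d2 x) (d3 x), e0,
      pd_mul (U_diff hP hw s x) (U_diff hP (hw.pd i) s x), U_pd hP hw, U_pd hP (hw.pd i)]
  have hspace : ∀ s, (∫ x, (((3 * a - 2 * A (s, x)) * At (s, x)) * (U w s x * U w s x) +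
      (3 * a * A (s, x) - A (s, x) * A (s, x)) * (2 * (U w s x * U (lap w) s x)))) =
      ∫ x, R (s, x) := by
    intro s
    have h1 : ∀ x, (((3 * a - 2 * A (s, x)) * At (s, x)) * (U w s x * U w s x) +
      (3 * a * A (s, x) - A (s, x) * A (s, x)) * (2 * (U w s x * U (lap w) s x))) =
      R (s, x) + ∑ i, (((-2 * (Ai i (s, x) * Ai i (s, x)) + (3 * a - 2 * A (s, x)) *
      Aii i (s, x)) * (U w s x * U w s x) + (3 * a - 2 * A (s, x)) * Ai i (s, x) *
      (2 * (U w s x * U (pd i w) s x))) + 2 * (((3 * a - 2 * A (s, x)) * Ai i (s, x)) *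
      (U w s x * U (pd i w) s x) + (3 * a * A (s, x) - A (s, x) * A (s, x)) *
      (U (pd i w) s x * U (pd i w) s x + U w s x * U (pd i (pd i w)) s x))) := by
      intro x
      rw [hsumA, U_lap hG hw]
      simp only [hR]
      rw [← Finset.sum_add_distrib, Finset.mul_sum, Finset.sum_mul, Finset.mul_sum,
        Finset.mul_sum, Finset.mul_sum, ← Finset.sum_add_distrib]
      refine Finset.sum_congr rfl fun i _ => ?_
      ring
    simp_rw [h1]
    rw [integral_add (bR.integrable s) (integrable_finsetSum _ fun i _ =>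
      ((bV' i).add (bW' i)).integrable s), integral_finsetSum _ fun i _ =>
      ((bV' i).add (bW' i)).integrable s]
    have h2 : ∀ i ∈ (Finset.univ : Finset (Fin n)), ∫ x, (((-2 * (Ai i (s, x) * Ai i (s, x)) +
      (3 * a - 2 * A (s, x)) *
      Aii i (s, x)) * (U w s x * U w s x) + (3 * a - 2 * A (s, x)) * Ai i (s, x) *
      (2 * (U w s x * U (pd i w) s x))) + 2 * (((3 * a - 2 * A (s, x)) * Ai i (s, x)) *
      (U w s x * U (pd i w) s x) + (3 * a * A (s, x) - A (s, x) * A (s, x)) *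
      (U (pd i w) s x * U (pd i w) s x + U w s x * U (pd i (pd i w)) s x))) = 0 := by
      intro i _
      rw [integral_add ((bV' i).integrable s) ((bW' i).integrable s), hV i s, hW i s, add_zero]
    rw [Finset.sum_eq_zero h2, add_zero]
  -- the lower bound
  have hlow : ∀ p : ℝ × E n, a * (∑ i, (U (pd i b) p.1 p.2 * U w p.1 p.2) ^ 2) -
      22 * a ^ 2 * (∑ i, U (pd i w) p.1 p.2 * U (pd i w) p.1 p.2) ≤ R p := by
    intro p
    obtain ⟨h0, h1⟩ := hAa p.1 p.2
    have h0' : 0 ≤ A p := h0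
    have h1' : A p ≤ a := h1
    simp only [hR]
    rw [Finset.mul_sum, Finset.mul_sum, ← Finset.sum_sub_distrib]
    refine Finset.sum_le_sum fun i _ => ?_
    set q := U (pd i b) p.1 p.2 * U w p.1 p.2
    set v := Ai i p * U w p.1 p.2
    set y := U (pd i w) p.1 p.2
    set c := 3 * a - 2 * A p with hc
    have hc1 : a ≤ c := by rw [hc]; linarith
    have hc2 : c ≤ 3 * a := by rw [hc]; linarith
    have e1 : a * q ^ 2 ≤ c * q ^ 2 := mul_le_mul_of_nonneg_right hc1 (sq_nonneg _)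
    have e2 : -(18 * a ^ 2 * y ^ 2) ≤ 2 * v ^ 2 - 4 * (c * v * y) := by
      have h3 : c ^ 2 ≤ 9 * a ^ 2 := by nlinarith
      have h4 : c ^ 2 * y ^ 2 ≤ 9 * a ^ 2 * y ^ 2 := mul_le_mul_of_nonneg_right h3 (sq_nonneg _)
      nlinarith [sq_nonneg (v - c * y)]
    have e3 : 2 * ((3 * a * A p - A p * A p) * y ^ 2) ≤ 4 * a ^ 2 * y ^ 2 := by
      have h3 : 3 * a * A p - A p * A p ≤ 2 * a ^ 2 := by nlinarith
      have h4 := mul_le_mul_of_nonneg_right h3 (sq_nonneg y)
      linarith
    nlinarith [e1, e2, e3]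
  -- conclusion
  have hIR : IntervalIntegrable (fun s => ∫ x, R (s, x)) volume 0 T := by
    rw [intervalIntegrable_iff_integrableOn_Ioc_of_le hT]
    exact (bR.integrable_prod T).integral_prod_left
  have hIS : IntervalIntegrable (fun s => ∫ x, ∑ i, U (pd i w) s x * U (pd i w) s x)
      volume 0 T := by
    rw [intervalIntegrable_iff_integrableOn_Ioc_of_le hT]
    exact (bS.integrable_prod T).integral_prod_left
  have hIQ : IntervalIntegrable (fun s => ∫ x, ∑ i, (U (pd i b) s x * U w s x) ^ 2)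
      volume 0 T := by
    rw [intervalIntegrable_iff_integrableOn_Ioc_of_le hT]
    exact (bQ.integrable_prod T).integral_prod_left
  have hmain : a * (∫ s in (0 : ℝ)..T, ∫ x, ∑ i, (U (pd i b) s x * U w s x) ^ 2) -
      22 * a ^ 2 * (∫ s in (0 : ℝ)..T, ∫ x, ∑ i, U (pd i w) s x * U (pd i w) s x) ≤
      ∫ s in (0 : ℝ)..T, ∫ x, R (s, x) := by
    rw [← intervalIntegral.integral_const_mul, ← intervalIntegral.integral_const_mul,
      ← intervalIntegral.integral_sub (hIQ.const_mul a) (hIS.const_mul _)]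
    refine intervalIntegral.integral_mono_on hT
      ((hIQ.const_mul a).sub (hIS.const_mul _)) hIR fun s _ => ?_
    rw [← integral_const_mul, ← integral_const_mul,
      ← integral_sub ((bQ.integrable s).const_mul a) ((bS.integrable s).const_mul _)]
    exact integral_mono (((bQ.integrable s).const_mul a).sub ((bS.integrable s).const_mul _))
      (bR.integrable s) fun x => hlow (s, x)
  have hen := energy hG hA hP hH hL hw hT
  simp only [hspace] at hftc
  rw [← hftc] at hmain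
  have hG0 : ∫ x, (3 * a * A (0, x) - A (0, x) * A (0, x)) * (U w 0 x * U w 0 x) = 0 := by
    have : ∀ x, A (0, x) = 0 := fun x => AA_nonpos hG b le_rfl x
    simp [this]
  have hGT : ∫ x, (3 * a * A (T, x) - A (T, x) * A (T, x)) * (U w T x * U w T x) ≤
      2 * a ^ 2 * ∫ x, U w T x * U w T x := by
    rw [← integral_const_mul]
    refine integral_mono ((BI.mul' kf (iw.mul iw.1)).integrable T)
      (((iw.mul iw.1).integrable T).const_mul _) fun x => ?_
    obtain ⟨h0, h1⟩ := hAa T x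
    rw [← hAeq] at h0 h1
    refine mul_le_mul_of_nonneg_right ?_ (mul_self_nonneg _)
    nlinarith
  have hwT : 0 ≤ ∫ x, U w T x * U w T x := integral_nonneg fun x => mul_self_nonneg _
  rw [hG0, sub_zero] at hmain
  set I1 := ∫ s in (0 : ℝ)..T, ∫ x, ∑ i, (U (pd i b) s x * U w s x) ^ 2
  set I2 := ∫ s in (0 : ℝ)..T, ∫ x, ∑ i, U (pd i w) s x * U (pd i w) s x
  have hfin : a * I1 ≤ a * (11 * a * ∫ x, w x * w x) := by
    have : 22 * a ^ 2 * I2 = 11 * a ^ 2 * ((∫ x, w x * w x) - ∫ x, U w T x * U w T x) := by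
      linarith [congrArg (fun r => 11 * a ^ 2 * r) hen]
    nlinarith [mul_nonneg (sq_nonneg a) hwT]
  exact le_of_mul_le_mul_left hfin ha

end

end Pool.Agent.H6.RG
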