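import Pool.Agent.H25.TRI.Targets

/-! Part C of the regularity theorem (MP_2697e3_an): families of bounded functions, calculus. -/

namespace Pool.Agent.H6.RG

open MeasureTheory Metric Set Filter Topology Pool.Agent.H87.SN Pool.Agent.H25.TRI
open scoped ContDiff RealInnerProductSpace ENNReal

noncomputable section

variable {n : ℕ}

/-- bounded continuous families -/
def BB (F : ℝ × E n → ℝ) : Prop := Continuous F ∧ ∃ C : ℝ, ∀ p, |F p| ≤ C

/-- bounded continuous families with a uniform `L^1` bound -/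
def BI (F : ℝ × E n → ℝ) : Prop := BB F ∧ ∃ C : ℝ≥0∞, C ≠ ⊤ ∧ ∀ s, ∫⁻ x, ‖F (s, x)‖ₑ ≤ C

lemma BB.nonneg_bound {F : ℝ × E n → ℝ} (h : BB F) : ∃ C : ℝ, 0 ≤ C ∧ ∀ p, |F p| ≤ C := by
  obtain ⟨C, hC⟩ := h.2
  exact ⟨|C|, abs_nonneg _, fun p => (hC p).trans (le_abs_self _)⟩

lemma BB.add {F G : ℝ × E n → ℝ} (hF : BB F) (hG : BB G) : BB (fun p => F p + G p) := by
  obtain ⟨C, hC⟩ := hF.2
  obtain ⟨D, hD⟩ := hG.2
  exact ⟨hF.1.add hG.1, C + D, fun p => (abs_add_le _ _).trans (add_le_add (hC p) (hD p))⟩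

lemma BB.mul {F G : ℝ × E n → ℝ} (hF : BB F) (hG : BB G) : BB (fun p => F p * G p) := by
  obtain ⟨C, hC0, hC⟩ := hF.nonneg_bound
  obtain ⟨D, hD0, hD⟩ := hG.nonneg_bound
  refine ⟨hF.1.mul hG.1, C * D, fun p => ?_⟩
  rw [abs_mul]
  exact mul_le_mul (hC p) (hD p) (abs_nonneg _) hC0

lemma BB.const (c : ℝ) : BB (fun _ : ℝ × E n => c) := ⟨continuous_const, |c|, fun _ => le_rfl⟩

lemma BB.cmul {F : ℝ × E n → ℝ} (hF : BB F) (c : ℝ) : BB (fun p => c * F p) :=
  (BB.const c).mul hF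

lemma BB.neg {F : ℝ × E n → ℝ} (hF : BB F) : BB (fun p => - F p) := by
  obtain ⟨C, hC⟩ := hF.2
  exact ⟨hF.1.neg, C, fun p => by rw [abs_neg]; exact hC p⟩

lemma BB.sub {F G : ℝ × E n → ℝ} (hF : BB F) (hG : BB G) : BB (fun p => F p - G p) := by
  have := hF.add hG.neg
  simpa [sub_eq_add_neg] using this

lemma BB.sum {ι : Type*} (I : Finset ι) {F : ι → ℝ × E n → ℝ} (hF : ∀ i ∈ I, BB (F i)) :
    BB (fun p => ∑ i ∈ I, F i p) := by
  classical
  induction I using Finset.induction_on with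
  | empty => simpa using BB.const (n := n) 0
  | insert a s ha ih =>
    simp only [Finset.sum_insert ha]
    exact (hF a (Finset.mem_insert_self a s)).add
      (ih fun i hi => hF i (Finset.mem_insert_of_mem hi))

lemma BI.mul {F G : ℝ × E n → ℝ} (hF : BI F) (hG : BB G) : BI (fun p => F p * G p) := by
  refine ⟨hF.1.mul hG, ?_⟩
  obtain ⟨C, hC, hC'⟩ := hF.2
  obtain ⟨D, hD0, hD⟩ := hG.nonneg_bound
  refine ⟨C * ENNReal.ofReal D, ENNReal.mul_ne_top hC ENNReal.ofReal_ne_top, fun s => ?_⟩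
  calc ∫⁻ x, ‖F (s, x) * G (s, x)‖ₑ ≤ ∫⁻ x, ‖F (s, x)‖ₑ * ENNReal.ofReal D := by
        refine lintegral_mono fun x => ?_
        rw [enorm_mul]
        gcongr
        rw [← ofReal_norm, Real.norm_eq_abs]
        exact ENNReal.ofReal_le_ofReal (hD _)
    _ = (∫⁻ x, ‖F (s, x)‖ₑ) * ENNReal.ofReal D := by
        rw [lintegral_mul_const']
        exact ENNReal.ofReal_ne_top
    _ ≤ _ := by gcongr; exact hC' s

lemma BI.mul' {F G : ℝ × E n → ℝ} (hF : BB F) (hG : BI G) : BI (fun p => F p * G p) := by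
  have := hG.mul hF
  simpa [mul_comm] using this

lemma BI.add {F G : ℝ × E n → ℝ} (hF : BI F) (hG : BI G) : BI (fun p => F p + G p) := by
  refine ⟨hF.1.add hG.1, ?_⟩
  obtain ⟨C, hC, hC'⟩ := hF.2
  obtain ⟨D, hD, hD'⟩ := hG.2
  refine ⟨C + D, ENNReal.add_ne_top.2 ⟨hC, hD⟩, fun s => ?_⟩
  have hm : Measurable fun x : E n => ‖F (s, x)‖ₑ :=
    (hF.1.1.comp (by fun_prop : Continuous fun x : E n => (s, x))).measurable.enorm
  calc ∫⁻ x, ‖F (s, x) + G (s, x)‖ₑ ≤ ∫⁻ x, (‖F (s, x)‖ₑ + ‖G (s, x)‖ₑ) :=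
        lintegral_mono fun x => enorm_add_le _ _
    _ = _ := lintegral_add_left hm _
    _ ≤ _ := add_le_add (hC' s) (hD' s)

lemma BI.cmul {F : ℝ × E n → ℝ} (hF : BI F) (c : ℝ) : BI (fun p => c * F p) :=
  BI.mul' (BB.const c) hF

lemma BI.neg {F : ℝ × E n → ℝ} (hF : BI F) : BI (fun p => - F p) := by
  have := hF.cmul (-1)
  simpa using this

lemma BI.sub {F G : ℝ × E n → ℝ} (hF : BI F) (hG : BI G) : BI (fun p => F p - G p) := by
  have := hF.add hG.neg
  simpa [sub_eq_add_neg] using this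

lemma BI.zero : BI (fun _ : ℝ × E n => (0 : ℝ)) :=
  ⟨BB.const 0, 0, by simp, by simp⟩

lemma BI.sum {ι : Type*} (I : Finset ι) {F : ι → ℝ × E n → ℝ} (hF : ∀ i ∈ I, BI (F i)) :
    BI (fun p => ∑ i ∈ I, F i p) := by
  classical
  induction I using Finset.induction_on with
  | empty => simpa using BI.zero (n := n)
  | insert a s ha ih =>
    simp only [Finset.sum_insert ha]
    exact (hF a (Finset.mem_insert_self a s)).add
      (ih fun i hi => hF i (Finset.mem_insert_of_mem hi))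

lemma BI.integrable {F : ℝ × E n → ℝ} (hF : BI F) (s : ℝ) : Integrable (fun x => F (s, x)) := by
  obtain ⟨C, hC, hC'⟩ := hF.2
  refine ⟨(hF.1.1.comp (by fun_prop : Continuous fun x : E n => (s, x))).aestronglyMeasurable, ?_⟩
  exact lt_of_le_of_lt (hC' s) (lt_top_iff_ne_top.2 hC)

lemma BI.integrable_prod {F : ℝ × E n → ℝ} (hF : BI F) (T : ℝ) :
    Integrable F ((volume.restrict (Ioc 0 T)).prod (volume : Measure (E n))) := by
  obtain ⟨C, hC, hC'⟩ := hF.2
  refine ⟨hF.1.1.aestronglyMeasurable, ?_⟩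
  rw [hasFiniteIntegral_def, lintegral_prod _ hF.1.1.measurable.enorm.aemeasurable]
  calc ∫⁻ s in Ioc 0 T, ∫⁻ x, ‖F (s, x)‖ₑ ≤ ∫⁻ _ in Ioc 0 T, C :=
        lintegral_mono fun s => hC' s
    _ = C * volume (Ioc 0 T) := by rw [setLIntegral_const]
    _ < ⊤ := by
        rw [Real.volume_Ioc]
        exact ENNReal.mul_lt_top (lt_top_iff_ne_top.2 hC) ENNReal.ofReal_lt_top

/-- fundamental theorem of calculus in time, integrated in space -/
lemma ftc_int {G G' : ℝ × E n → ℝ} (hG : BI G) (hG' : BI G')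
    (hd : ∀ s > 0, ∀ x, HasDerivAt (fun s => G (s, x)) (G' (s, x)) s) {T : ℝ} (hT : 0 ≤ T) :
    (∫ x, G (T, x)) - ∫ x, G (0, x) = ∫ s in (0 : ℝ)..T, ∫ x, G' (s, x) := by
  rw [← integral_sub (hG.integrable T) (hG.integrable 0)]
  have h1 : ∀ x, G (T, x) - G (0, x) = ∫ s in (0 : ℝ)..T, G' (s, x) := by
    intro x
    have hc : ContinuousOn (fun s => G (s, x)) (Icc 0 T) :=
      (hG.1.1.comp (by fun_prop : Continuous fun s : ℝ => (s, x))).continuousOn
    have hi : IntervalIntegrable (fun s => G' (s, x)) volume 0 T :=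
      (hG'.1.1.comp (by fun_prop : Continuous fun s : ℝ => (s, x))).intervalIntegrable _ _
    exact (intervalIntegral.integral_eq_sub_of_hasDerivAt_of_le hT hc
      (fun s hs => hd s hs.1 x) hi).symm
  simp_rw [h1, intervalIntegral.integral_of_le hT]
  rw [integral_integral_swap]
  have := (hG'.integrable_prod T).swap
  exact this

lemma pd_hasFDeriv {f : E n → ℝ} {x : E n} (_hf : DifferentiableAt ℝ f x) (i : Fin n) :
    pd i f x = fderiv ℝ f x (bv i) := rfl

lemma pd_mul {f g : E n → ℝ} {x : E n} (hf : DifferentiableAt ℝ f x) (hg : DifferentiableAt ℝ g x)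
    (i : Fin n) : pd i (fun y => f y * g y) x = pd i f x * g x + f x * pd i g x := by
  unfold pd
  have := (hf.hasFDerivAt.mul hg.hasFDerivAt).fderiv
  rw [show (fun y => f y * g y) = f * g from rfl, this]
  simp
  ring

lemma pd_sub {f g : E n → ℝ} {x : E n} (hf : DifferentiableAt ℝ f x) (hg : DifferentiableAt ℝ g x)
    (i : Fin n) : pd i (fun y => f y - g y) x = pd i f x - pd i g x := by
  unfold pd
  rw [show (fun y => f y - g y) = f - g from rfl, (hf.hasFDerivAt.sub hg.hasFDerivAt).fderiv]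
  simp

lemma pd_add {f g : E n → ℝ} {x : E n} (hf : DifferentiableAt ℝ f x) (hg : DifferentiableAt ℝ g x)
    (i : Fin n) : pd i (fun y => f y + g y) x = pd i f x + pd i g x := by
  unfold pd
  rw [show (fun y => f y + g y) = f + g from rfl, (hf.hasFDerivAt.add hg.hasFDerivAt).fderiv]
  simp

lemma pd_cmul {f : E n → ℝ} {x : E n} (hf : DifferentiableAt ℝ f x) (c : ℝ)
    (i : Fin n) : pd i (fun y => c * f y) x = c * pd i f x := by
  unfold pd
  rw [(hf.hasFDerivAt.const_mul c).fderiv]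
  simp

/-- the integral of a derivative vanishes -/
lemma int_pd_zero {f : E n → ℝ} (hf : Differentiable ℝ f) (hi : Integrable f) (i : Fin n)
    (hd : Integrable (pd i f)) : ∫ x, pd i f x = 0 := by
  have h := integral_mul_fderiv_eq_neg_fderiv_mul_of_integrable (μ := (volume : Measure (E n)))
    (f := fun _ : E n => (1 : ℝ)) (g := f) (v := bv i) (by simp)
    (by simp only [one_mul]; exact hd) (by simpa using hi) (fun x _ => differentiableAt_const _) (fun x _ => hf x)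
  simpa [pd] using h

end

end Pool.Agent.H6.RG
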