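import Pool.Agent.H6.RG.DUH

/-! Part C of the regularity theorem (MP_2697e3_an): `0 ≤ A ≤ 4 n C² M²`. -/

namespace Pool.Agent.H6.RG

open MeasureTheory Metric Set Filter Topology Pool.Agent.H87.SN Pool.Agent.H25.TRI
open scoped ContDiff RealInnerProductSpace ENNReal

noncomputable section

variable {n : ℕ}

/-- half of the Gaussian variance -/
def AA (b : E n → ℝ) (s : ℝ) (x : E n) : ℝ :=
  (U (fun y => b y * b y) s x - U b s x * U b s x) / 2

lemma U_nonpos {f : E n → ℝ} (hG : T_GAU) {s : ℝ} (hs : s ≤ 0) (x : E n) : U f s x = f x := by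
  unfold U
  rw [Real.sqrt_eq_zero_of_nonpos hs]
  simp only [zero_smul, sub_zero]
  rw [integral_mul_const, (hG n).2.1, one_mul]

lemma AA_nonpos (hG : T_GAU) (b : E n → ℝ) {s : ℝ} (hs : s ≤ 0) (x : E n) : AA b s x = 0 := by
  unfold AA
  rw [U_nonpos hG hs, U_nonpos hG hs]
  simp

lemma Psi_zero (hA : T_UBA) {b : E n → ℝ} (hb : Cc b) (t : ℝ) (x : E n) :
    Psi b t x 0 = U (fun y => b y * b y) t x := by
  unfold Psi
  conv_rhs => unfold U
  refine integral_congr_ae (Filter.Eventually.of_forall fun z => ?_)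
  simp only [sub_zero]
  rw [U_zero hA hb]
  ring

lemma Psi_self (hG : T_GAU) {b : E n → ℝ} (t : ℝ) (x : E n) :
    Psi b t x t = U b t x * U b t x := by
  unfold Psi
  simp only [sub_self, Real.sqrt_zero, zero_smul, sub_zero]
  rw [integral_mul_const, (hG n).2.1]
  ring

lemma Psi_deriv_bound (hG : T_GAU) (hA : T_UBA) (hB : T_MOB) {C : ℝ} (hC0 : 0 ≤ C)
    (hC : ∀ (f : E n → ℝ) (M : ℝ), Continuous f → 0 ≤ M →
      Mor f M → ∀ s : ℝ, 0 < s → ∀ x, |U f s x| ≤ C * M / Real.sqrt s)
    {b : E n → ℝ} (hb : Cc b) {M : ℝ} (hM : 0 ≤ M) (hbM : ∀ i, Mor (pd i b) M)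
    {s t : ℝ} (hs : 0 < s) (hst : s < t) (x : E n) (i : Fin n) :
    0 ≤ (∫ z : E n, gam z * (U (pd i b) s (x - √(t - s) • z)) ^ 2) ∧
    (∫ z : E n, gam z * (U (pd i b) s (x - √(t - s) • z)) ^ 2) ≤
      (C * M) ^ 2 / (√s * √(t - s)) := by
  have hts : 0 < t - s := by linarith
  have hτ : 0 < √(t - s) := Real.sqrt_pos.2 hts
  have hσ : 0 < √s := Real.sqrt_pos.2 hs
  refine ⟨integral_nonneg fun z => mul_nonneg ((hG n).1 z).le (sq_nonneg _), ?_⟩
  have hc : Continuous (U (pd i b) s) :=
    (U_BB hA (hb.pd i)).1.comp (by fun_prop : Continuous fun z : E n => (s, z))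
  have h1 : ∀ y, |U (pd i b) s y| ≤ C * M / √s :=
    fun y => hC _ M (hb.pd i).continuous hM (hbM i) s hs y
  have hmor : Mor (fun y => |U (pd i b) s y|) M := by
    intro y r hr
    have := hB n (pd i b) M (hb.pd i) hM (hbM i) s y r hr
    refine le_trans (le_of_eq ?_) this
    refine lintegral_congr fun z => ?_
    simp only [← ofReal_norm, Real.norm_eq_abs, abs_abs]
  have h2 := hC (fun y => |U (pd i b) s y|) M hc.abs hM hmor (t - s) hts x
  have hcz : Continuous fun z : E n => U (pd i b) s (x - √(t - s) • z) := hc.comp (by fun_prop)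
  have hK : 0 ≤ C * M / √s := by positivity
  have h3 : (∫ z : E n, gam z * (U (pd i b) s (x - √(t - s) • z)) ^ 2) ≤
      ∫ z : E n, (C * M / √s) * (gam z * |U (pd i b) s (x - √(t - s) • z)|) := by
    refine integral_mono_of_nonneg (Filter.Eventually.of_forall fun z =>
      mul_nonneg ((hG n).1 z).le (sq_nonneg _)) ?_ (Filter.Eventually.of_forall fun z => ?_)
    · refine (gam_mul_int hG (hcz.abs) (C := C * M / √s) fun z => ?_).const_mul _
      rw [abs_abs]
      exact h1 _
    · simp only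
      have hg := ((hG n).1 z).le
      have h4 : (U (pd i b) s (x - √(t - s) • z)) ^ 2 ≤
          C * M / √s * |U (pd i b) s (x - √(t - s) • z)| := by
        rw [← sq_abs, sq]
        exact mul_le_mul_of_nonneg_right (h1 _) (abs_nonneg _)
      calc gam z * (U (pd i b) s (x - √(t - s) • z)) ^ 2
          ≤ gam z * (C * M / √s * |U (pd i b) s (x - √(t - s) • z)|) :=
            mul_le_mul_of_nonneg_left h4 hg
        _ = _ := by ring
  have h5 : (∫ z : E n, gam z * |U (pd i b) s (x - √(t - s) • z)|) ≤ C * M / √(t - s) := by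
    refine le_trans (le_abs_self _) ?_
    exact h2
  refine h3.trans ?_
  rw [integral_const_mul]
  calc C * M / √s * ∫ z : E n, gam z * |U (pd i b) s (x - √(t - s) • z)|
      ≤ C * M / √s * (C * M / √(t - s)) := mul_le_mul_of_nonneg_left h5 hK
    _ = _ := by
      field_simp

lemma AA_bounds (hG : T_GAU) (hA : T_UBA) (hP : T_UPD) (hH : T_UHE) (hB : T_MOB)
    {C : ℝ} (hC0 : 0 ≤ C)
    (hC : ∀ (f : E n → ℝ) (M : ℝ), Continuous f → 0 ≤ M →
      Mor f M → ∀ s : ℝ, 0 < s → ∀ x, |U f s x| ≤ C * M / Real.sqrt s)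
    {b : E n → ℝ} (hb : Cc b) {M : ℝ} (hM : 0 ≤ M) (hbM : ∀ i, Mor (pd i b) M)
    (t : ℝ) (x : E n) : 0 ≤ AA b t x ∧ AA b t x ≤ 4 * n * (C * M) ^ 2 := by
  rcases le_or_gt t 0 with ht | ht
  · rw [AA_nonpos hG b ht]
    exact ⟨le_rfl, by positivity⟩
  have hcont := Psi_cont hG hA hb t x
  have hder : ∀ s ∈ Ioo 0 t, HasDerivAt (Psi b t x)
      (-2 * ∑ i, ∫ z : E n, gam z * (U (pd i b) s (x - √(t - s) • z)) ^ 2) s :=
    fun s hs => Psi_deriv hG hA hP hH hb hs.1 hs.2 x
  have hbd : ∀ s ∈ Ioo 0 t, 0 ≤ (∑ i, ∫ z : E n, gam z *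
      (U (pd i b) s (x - √(t - s) • z)) ^ 2) ∧ (∑ i, ∫ z : E n, gam z *
      (U (pd i b) s (x - √(t - s) • z)) ^ 2) ≤ n * ((C * M) ^ 2 / (√s * √(t - s))) := by
    intro s hs
    constructor
    · exact Finset.sum_nonneg fun i _ =>
        (Psi_deriv_bound hG hA hB hC0 hC hb hM hbM hs.1 hs.2 x i).1
    · refine (Finset.sum_le_card_nsmul _ _ _ fun i _ =>
        (Psi_deriv_bound hG hA hB hC0 hC hb hM hbM hs.1 hs.2 x i).2).trans ?_
      simp
  have h0 := Psi_zero hA hb t x
  have ht' := Psi_self hG (b := b) t x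
  have hanti : Psi b t x t ≤ Psi b t x 0 := by
    have hanti' : AntitoneOn (Psi b t x) (Icc 0 t) := by
      refine antitoneOn_of_deriv_nonpos (convex_Icc 0 t) hcont.continuousOn ?_ ?_
      · intro s hs
        rw [interior_Icc] at hs
        exact (hder s hs).differentiableAt.differentiableWithinAt
      · intro s hs
        rw [interior_Icc] at hs
        rw [(hder s hs).deriv]
        have := (hbd s hs).1
        linarith
    exact hanti' (left_mem_Icc.2 ht.le) (right_mem_Icc.2 ht.le) ht.le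
  set B : ℝ := 2 * (n * (C * M) ^ 2) with hBdef
  have hB0 : 0 ≤ B := by positivity
  have hst : 0 < √t := Real.sqrt_pos.2 ht
  have hmono : Psi b t x 0 + 2 * B / √t * (√0 - √(t - 0)) ≤
      Psi b t x t + 2 * B / √t * (√t - √(t - t)) := by
    have hmono' : MonotoneOn (fun s => Psi b t x s + 2 * B / √t * (√s - √(t - s))) (Icc 0 t) := by
      have hd : ∀ s ∈ Ioo 0 t, HasDerivAt (fun s => Psi b t x s + 2 * B / √t * (√s - √(t - s)))
          ((-2 * ∑ i, ∫ z : E n, gam z * (U (pd i b) s (x - √(t - s) • z)) ^ 2) +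
            2 * B / √t * (1 / (2 * √s) - -1 / (2 * √(t - s)))) s := by
        intro s hs
        have h1 : HasDerivAt (fun s => √(t - s)) (-1 / (2 * √(t - s))) s := by
          have := (((hasDerivAt_id s).const_sub t)).sqrt (by simp only [id]; linarith [hs.2])
          simpa using this
        have h2 : HasDerivAt (fun s => √s) (1 / (2 * √s)) s :=
          (hasDerivAt_id s).sqrt (ne_of_gt hs.1)
        exact (hder s hs).add ((h2.sub h1).const_mul _)
      refine monotoneOn_of_deriv_nonneg (convex_Icc 0 t) ?_ ?_ ?_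
      · exact (hcont.add (continuous_const.mul (by fun_prop))).continuousOn
      · intro s hs
        rw [interior_Icc] at hs
        exact (hd s hs).differentiableAt.differentiableWithinAt
      · intro s hs
        rw [interior_Icc] at hs
        rw [(hd s hs).deriv]
        have h1 := (hbd s hs).2
        have hs1 : 0 < √s := Real.sqrt_pos.2 hs.1
        have hs2 : 0 < √(t - s) := Real.sqrt_pos.2 (by linarith [hs.2])
        have h3 : √t ≤ √s + √(t - s) := by
          rw [Real.sqrt_le_left (by positivity)]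
          have e1 : √s ^ 2 = s := Real.sq_sqrt hs.1.le
          have e2 : √(t - s) ^ 2 = t - s := Real.sq_sqrt (by linarith [hs.2])
          nlinarith [mul_pos hs1 hs2]
        have h4 : 2 * B / √t * (1 / (2 * √s) - -1 / (2 * √(t - s))) =
            B * ((√s + √(t - s)) / √t) / (√s * √(t - s)) := by
          field_simp
          ring
        have h5 : 1 ≤ (√s + √(t - s)) / √t := by
          rw [le_div_iff₀ hst]; linarith
        have h6 : B / (√s * √(t - s)) ≤ B * ((√s + √(t - s)) / √t) / (√s * √(t - s)) := by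
          gcongr
          nlinarith
        have h7 : 2 * (n * ((C * M) ^ 2 / (√s * √(t - s)))) = B / (√s * √(t - s)) := by
          rw [hBdef]; ring
        rw [h4]
        linarith
    exact hmono' (left_mem_Icc.2 ht.le) (right_mem_Icc.2 ht.le) ht.le
  rw [h0, ht'] at hanti hmono
  have e3 : 2 * B / √t * (√0 - √(t - 0)) = -(2 * B) := by
    rw [Real.sqrt_zero, sub_zero, zero_sub]
    field_simp
  have e4 : 2 * B / √t * (√t - √(t - t)) = 2 * B := by
    rw [sub_self, Real.sqrt_zero, sub_zero]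
    field_simp
  rw [e3, e4] at hmono
  unfold AA
  constructor
  · linarith
  · rw [hBdef] at hmono
    linarith

end

end Pool.Agent.H6.RG
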